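import Pool.Agent.H77.EDM.Core

/-!
# RCA: the recursion for forward orbits
-/

set_option autoImplicit false

open MvPolynomial
open Pool.Agent.H12.ZD (pmap)
open Pool.Agent.H18.HIT
open Pool.Agent.H8.ZA (HFam Const NA)
open Pool.Agent.H8.TD (lc dg Wsp)
open Pool.Agent.H8.TX (hn)

namespace Pool.Agent.H77.EDM

open Pool.Agent.H13.EDM

theorem fg_of_adjoin {K : Type} [Field K] [Algebra Qb K] {a : ℕ} (ξ : Fin a → K)
    (h : IntermediateField.adjoin Qb (Set.range ξ) = ⊤) : (⊤ : IntermediateField Qb K).FG := by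
  rw [← h]
  exact ⟨(Set.finite_range ξ).toFinset, by rw [Set.Finite.coe_toFinset]⟩

theorem pf_RCA (h1 : T_HKN) (h2 : T_MDI) (h3 : T_MDE) (h4 : T_SEQ) : T_RCA := by
  intro N a m i l₀ ρ R K _ _ _ _ _ _ _ τ ξ φ χ hinj htr hN hadj hφ hχ hi hl hρ hin
  obtain ⟨e, rfl⟩ : ∃ e, N = e + 1 := ⟨N - 1, by omega⟩
  have hfg := fg_of_adjoin _ hadj
  have hχ' : (fun l => algebraMap R K (χ l)) = fun l => τ^[m + m] (algebraMap R K (ξ l)) :=
    funext hχ
  have hφ' : (fun l => algebraMap R K (φ l)) = fun l => τ^[m] (algebraMap R K (ξ l)) :=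
    funext hφ
  obtain ⟨-, -, -, hpos, -⟩ := h4 (e + 1) a Qb K τ (fun l => algebraMap R K (ξ l)) htr hadj
  refine core h1 e a i l₀ (dj Qb (e + 1) τ (fun l => algebraMap R K (ξ l)) i (m + m))
    (fun j => wj Qb (e + 1) τ (fun l => algebraMap R K (ξ l)) j m) ρ R K χ ξ φ hinj htr ?_ hi
    hl hρ (hpos _ _) ?_ ?_ ?_
  · refine top_unique ?_
    rw [← hadj]
    exact IntermediateField.adjoin.mono _ _ _ Set.subset_union_right
  · obtain ⟨s, t, hst⟩ := h3 (e + 1) a i Qb K (fun l => algebraMap R K (χ l))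
      (fun l => algebraMap R K (ξ l)) htr hfg hi
    refine ⟨s, t, ?_⟩
    rw [hχ'] at hst ⊢
    exact hst
  · intro l j hj s t
    have h := h2 e a j Qb K (fun l => algebraMap R K (χ l)) (fun l => algebraMap R K (ξ l))
      (fun l => algebraMap R K (φ l)) (Pi.single l 1) s t htr hfg hj
    rw [Pool.Agent.H8.TD.lc_single] at h
    refine h.trans (le_of_eq ?_)
    rw [hχ', hφ']
    rfl
  · have e1 : e + 1 - 1 = e := by omega
    rw [e1] at hin
    exact hin

end Pool.Agent.H77.EDM
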