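import Pool.Agent.H77.EDM.Core
import Pool.Agent.H77.EDM.RCA

/-!
# RCB: the recursion for backward orbits
-/

set_option autoImplicit false

open MvPolynomial
open Pool.Agent.H12.ZD (pmap)
open Pool.Agent.H18.HIT
open Pool.Agent.H8.ZA (HFam Const NA)
open Pool.Agent.H8.TD (lc dg Wsp)
open Pool.Agent.H8.TX (hn)

namespace Pool.Agent.H77.EDM

open Pool.Agent.H13.EDM

theorem range_cast {n m : ℕ} (h : n = m) {α : Type} (f : Fin m → α) :
    Set.range (fun r : Fin n => f (Fin.cast h r)) = Set.range f := by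
  subst h
  rfl

theorem pf_RCB (h1 : T_HKN) (h2 : T_MDI) (h3 : T_MDE) (h4 : T_SEQ) : T_RCB := by
  intro N a m i l₀ ρ R K _ _ _ _ _ _ _ τ ξ φ χ hinj htr hN hadj hφ hχ hi hl hρ hin
  obtain ⟨e, rfl⟩ : ∃ e, N = e + 1 := ⟨N - 1, by omega⟩
  have hfg := fg_of_adjoin _ hadj
  have hχ' : (fun l => algebraMap R K (χ l)) = fun l => τ^[m + m] (algebraMap R K (ξ l)) :=
    funext hχ
  have hφ' : (fun l => algebraMap R K (φ l)) = fun l => τ^[m] (algebraMap R K (ξ l)) :=
    funext hφ
  obtain ⟨-, -, -, hpos, -⟩ := h4 (e + 1) a Qb K τ (fun l => algebraMap R K (ξ l)) htr hadj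
  refine core h1 e a i l₀
    (dj Qb (e + 1) τ (fun l => algebraMap R K (ξ l)) (e + 1 - i) (m + m))
    (fun j => wj Qb (e + 1) τ (fun l => algebraMap R K (ξ l)) (e - j) m) ρ R K ξ χ φ hinj htr
    ?_ hi hl hρ (hpos _ _) ?_ ?_ ?_
  · refine top_unique ?_
    rw [← hadj]
    exact IntermediateField.adjoin.mono _ _ _ Set.subset_union_left
  · obtain ⟨s, t, hst⟩ := h3 (e + 1) a (e + 1 - i) Qb K (fun l => algebraMap R K (χ l))
      (fun l => algebraMap R K (ξ l)) htr hfg (Nat.sub_le _ _)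
    have hc : i = e + 1 - (e + 1 - i) := by omega
    refine ⟨fun r => t (Fin.cast hc r), s, ?_⟩
    rw [range_cast hc (fun r => lc (t r) fun i => algebraMap R K (ξ i)), Set.union_comm]
    rw [hχ'] at hst ⊢
    exact hst
  · intro l j hj s t
    have hc : e - (e - j) = j := by omega
    have h := h2 e a (e - j) Qb K (fun l => algebraMap R K (χ l))
      (fun l => algebraMap R K (ξ l)) (fun l => algebraMap R K (φ l)) (Pi.single l 1) t
      (fun r => s (Fin.cast hc r)) htr hfg (Nat.sub_le _ _)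
    rw [Pool.Agent.H8.TD.lc_single,
      range_cast hc (fun r => lc (s r) fun i => algebraMap R K (ξ i)), Set.union_comm] at h
    refine h.trans (le_of_eq ?_)
    rw [hχ', hφ']
    rfl
  · have e1 : e + 1 - 1 = e := by omega
    rw [e1] at hin
    exact hin

end Pool.Agent.H77.EDM
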