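import Pool.Agent.H13.EDM.Targets
import Pool.Agent.H8.TX.Basic
import Pool.Agent.H8.TD.Basic

/-!
# The recursions: common part
-/

set_option autoImplicit false

open MvPolynomial
open Pool.Agent.H12.ZD (pmap)
open Pool.Agent.H18.HIT
open Pool.Agent.H8.ZA (HFam Const NA)
open Pool.Agent.H8.TD (lc dg Wsp)
open Pool.Agent.H8.TX (hn)

namespace Pool.Agent.H77.EDM

open Pool.Agent.H13.EDM

theorem core (h1 : T_HKN) (e a i l₀ Q : ℕ) (W : ℕ → ℕ) (ρ : ℝ) (R K : Type) [CommRing R]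
    [IsDomain R] [Field K] [Algebra Qb R] [Algebra R K] [Algebra Qb K] [IsScalarTower Qb R K]
    (A B φ : Fin a → R) (hinj : Function.Injective (algebraMap R K))
    (htr : Algebra.trdeg Qb K = (e + 1 : ℕ))
    (hadj : IntermediateField.adjoin Qb (Set.range (fun i => algebraMap R K (A i)) ∪
      Set.range (fun i => algebraMap R K (B i))) = ⊤)
    (hi : i ≤ e + 1) (hl : 1 ≤ l₀) (hρ : 0 ≤ ρ) (hQ1 : 1 ≤ Q)
    (hQ : ∃ (s : Fin i → Fin a → Qb) (t : Fin (e + 1 - i) → Fin a → Qb),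
      Q ≤ dg Qb (Set.range (fun r => lc (s r) fun i => algebraMap R K (A i)) ∪
        Set.range fun r => lc (t r) fun i => algebraMap R K (B i)))
    (hW : ∀ l : Fin a, ∀ j ≤ e, ∀ (s : Fin j → Fin a → Qb) (t : Fin (e - j) → Fin a → Qb),
      dg Qb (insert (algebraMap R K (φ l))
        (Set.range (fun r => lc (s r) fun i => algebraMap R K (A i)) ∪
          Set.range fun r => lc (t r) fun i => algebraMap R K (B i))) ≤ W j)
    (hin : (a * ((e + 1).factorial * 2 ^ (e + 1)) : ℝ) *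
      (∑ j ∈ Finset.range (e + 1), (l₀ : ℝ) ^ (e - j) * W j) * ρ ≤
      Q * (l₀ : ℝ) ^ (e + 1 - i)) :
    ∃ β : Fin a → R, (∀ l, β l ≠ 0) ∧ ∀ (K' : IntermediateField ℚ Qb) (F : HFam K'), ∃ c : ℝ,
      ∀ (n : ℕ) (ev : Fin n → (R →ₐ[Qb] Qb)), (∀ l j, ev j (β l) ≠ 0) →
        (∀ l, ∏ j, ev j (β l) ∈ K') →
        ρ * ∑ j, hn F (fun l => ev j (φ l)) ≤ ∑ j, hn F (fun l => ev j (A l)) +
          l₀ * ∑ j, hn F (fun l => ev j (B l)) + n * c := by
  have H := fun l : Fin a => h1 e a a i 1 l₀ Q W R K A B (φ l) hinj htr hadj hi le_rfl hl hQ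
    (hW l)
  choose β hβ hc using H
  refine ⟨β, hβ, fun K' F => ?_⟩
  choose c hc using fun l => hc l K' F
  set Q' : ℝ := Q * (l₀ : ℝ) ^ (e + 1 - i) with hQ'
  have hQpos : 0 < Q' := by
    have a1 : (0 : ℝ) < Q := by exact_mod_cast hQ1
    have a2 : (0 : ℝ) < l₀ := by exact_mod_cast hl
    positivity
  set Sg : ℝ := ∑ j ∈ Finset.range (e + 1), (l₀ : ℝ) ^ (e - j) * W j with hSg
  refine ⟨(∑ l, c l) * (ρ / Q'), fun n ev hev hpr => ?_⟩
  set X : ℝ := ∑ j, hn F (fun l => ev j (A l)) + l₀ * ∑ j, hn F (fun l => ev j (B l)) with hX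
  have hX0 : 0 ≤ X := by
    have b1 : 0 ≤ ∑ j, hn F (fun l => ev j (A l)) :=
      Finset.sum_nonneg fun j _ => Pool.Agent.H8.TX.hn_nonneg F _
    have b2 : 0 ≤ ∑ j, hn F (fun l => ev j (B l)) :=
      Finset.sum_nonneg fun j _ => Pool.Agent.H8.TX.hn_nonneg F _
    positivity
  have hone : ∀ l : Fin a, Q' * ∑ j, hn F ![ev j (φ l)] ≤
      (((e + 1).factorial : ℝ) * 2 ^ (e + 1)) * Sg * X + n * c l := by
    intro l
    have h := hc l n ev (fun j => hev l j) (hpr l)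
    have e1 : (∑ j ∈ Finset.range (e + 1), ((1 : ℕ) : ℝ) ^ j * (l₀ : ℝ) ^ (e - j) * W j) =
        Sg := by
      rw [hSg]
      refine Finset.sum_congr rfl fun j _ => ?_
      simp
    rw [e1] at h
    have e2 : ((Q : ℝ) * ((1 : ℕ) : ℝ) ^ i * (l₀ : ℝ) ^ (e + 1 - i)) = Q' := by
      rw [hQ']; simp
    rw [e2] at h
    have e3 : (((1 : ℕ) : ℝ) * ∑ j, hn F (fun i => ev j (A i)) +
        l₀ * ∑ j, hn F (fun i => ev j (B i))) = X := by
      rw [hX]; simp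
    rw [e3] at h
    exact h
  have hsum : Q' * ∑ j, hn F (fun l => ev j (φ l)) ≤
      (a * (((e + 1).factorial : ℝ) * 2 ^ (e + 1))) * Sg * X + n * ∑ l, c l := by
    have s1 : ∑ j, hn F (fun l => ev j (φ l)) ≤ ∑ l : Fin a, ∑ j, hn F ![ev j (φ l)] := by
      rw [Finset.sum_comm]
      exact Finset.sum_le_sum fun j _ => Pool.Agent.H8.TX.hn_le_sum F _
    have s2 : Q' * ∑ l : Fin a, ∑ j, hn F ![ev j (φ l)] ≤
        ∑ l : Fin a, ((((e + 1).factorial : ℝ) * 2 ^ (e + 1)) * Sg * X + n * c l) := by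
      rw [Finset.mul_sum]
      exact Finset.sum_le_sum fun l _ => hone l
    have s3 : ∑ l : Fin a, ((((e + 1).factorial : ℝ) * 2 ^ (e + 1)) * Sg * X + n * c l) =
        (a * (((e + 1).factorial : ℝ) * 2 ^ (e + 1))) * Sg * X + n * ∑ l, c l := by
      rw [Finset.sum_add_distrib, Finset.sum_const, Finset.card_univ, Fintype.card_fin,
        nsmul_eq_mul, ← Finset.mul_sum]
      ring
    calc Q' * ∑ j, hn F (fun l => ev j (φ l)) ≤ Q' * ∑ l : Fin a, ∑ j, hn F ![ev j (φ l)] :=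
          mul_le_mul_of_nonneg_left s1 hQpos.le
      _ ≤ _ := s2
      _ = _ := s3
  have hfac : 0 ≤ ρ / Q' := by positivity
  have hm := mul_le_mul_of_nonneg_left hsum hfac
  have t1 : ρ / Q' * (Q' * ∑ j, hn F (fun l => ev j (φ l))) =
      ρ * ∑ j, hn F (fun l => ev j (φ l)) := by
    field_simp
  rw [t1] at hm
  have t2 : ρ / Q' * ((a * (((e + 1).factorial : ℝ) * 2 ^ (e + 1))) * Sg * X) ≤ X := by
    have u1 : ρ / Q' * ((a * (((e + 1).factorial : ℝ) * 2 ^ (e + 1))) * Sg * X) =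
        ((a * (((e + 1).factorial : ℝ) * 2 ^ (e + 1))) * Sg * ρ) / Q' * X := by
      ring
    rw [u1]
    have u2 : ((a * (((e + 1).factorial : ℝ) * 2 ^ (e + 1))) * Sg * ρ) / Q' ≤ 1 := by
      rw [div_le_one hQpos]
      exact hin
    calc _ ≤ 1 * X := mul_le_mul_of_nonneg_right u2 hX0
      _ = X := one_mul X
  calc ρ * ∑ j, hn F (fun l => ev j (φ l)) ≤
        ρ / Q' * ((a * (((e + 1).factorial : ℝ) * 2 ^ (e + 1))) * Sg * X + n * ∑ l, c l) := hm
    _ = ρ / Q' * ((a * (((e + 1).factorial : ℝ) * 2 ^ (e + 1))) * Sg * X) +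
        n * ((∑ l, c l) * (ρ / Q')) := by ring
    _ ≤ X + n * ((∑ l, c l) * (ρ / Q')) := by linarith

end Pool.Agent.H77.EDM
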